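import Pool.Agent.H98.EX.PTargets

/-!
# Row MPF: moments of the sums over paths
-/

set_option autoImplicit false

open MeasureTheory ProbabilityTheory Filter Topology
open scoped ENNReal
open Pool.Agent.H95 Pool.Agent.H95.Cop
open Pool.Agent.H96.Cop (pk lint_mul_shift)
open Pool.Agent.H99.CE (PF PF_zero PF_succ WR)
open Pool.Agent.H98.SLN (kt)
open Pool.Agent.H98.EX

namespace Pool.Agent.H25.EX

lemma measH (a b : ℕ) : Measurable (fun x : ℕ → ℝ => H x a b) := by
  unfold H
  exact Finset.measurable_sum _ fun i _ => measurable_pi_apply i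

lemma depH {b : ℕ} (x x' : ℕ → ℝ) (h : ∀ i < b, x i = x' i) (a : ℕ) : H x a b = H x' a b := by
  unfold H
  exact Finset.sum_congr rfl fun i hi => h i (Finset.mem_Ico.1 hi).2

lemma wr_wc (K : PMF ℕ) (k : ℕ) : WR (wc K k) := by
  intro n
  refine ⟨?_, ?_, ?_⟩
  · unfold wc
    by_cases hn : n ≤ k
    · simp only [hn, if_true]
      exact ((Real.measurable_cosh.comp ((measH 0 n).div_const 2)).ennreal_ofReal).const_mul _
    · simp only [hn, if_false]
      exact measurable_const
  · intro x x' h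
    unfold wc
    rw [depH x x' h 0]
  · intro x
    unfold wc
    split_ifs
    · exact ENNReal.mul_ne_top (by unfold pk; exact ENNReal.ofReal_ne_top) ENNReal.ofReal_ne_top
    · exact ENNReal.zero_ne_top

lemma measSy (k : ℕ) (ϑ : ℝ) (a b : ℕ) : Measurable (fun x : ℕ → ℝ => Sy k ϑ x a b) := by
  unfold Sy
  exact ((measH a b).div_const 2).add_const _

lemma Sy_add (k : ℕ) (ϑ : ℝ) (x : ℕ → ℝ) (a b : ℕ) :
    Sy k ϑ x 0 (a + b) = Sy k ϑ x 0 a + Sy k ϑ (shift a x) 0 b := by
  unfold Sy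
  rw [H_shift, zero_add, add_comm b a, ← H_add x (Nat.zero_le a) (Nat.le_add_right a b)]
  push_cast
  ring

/-- multiplicative weights along the sequence -/
structure MU (m : ℕ → (ℕ → ℝ) → ℝ≥0∞) : Prop where
  me : ∀ n, Measurable (m n)
  de : ∀ n, DepLt n (m n)
  ze : ∀ x, m 0 x = 1
  ad : ∀ a b x, m (a + b) x = m a x * m b (shift a x)

lemma mu_one : MU fun _ _ => 1 :=
  ⟨fun _ => measurable_const, fun _ _ _ _ => rfl, fun _ => rfl, fun _ _ _ => by rw [mul_one]⟩

lemma mu_Sy (k : ℕ) (ϑ t : ℝ) : MU fun n x => ENNReal.ofReal (Real.exp (t * Sy k ϑ x 0 n)) := by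
  refine ⟨fun n => ?_, fun n x x' h => ?_, fun x => ?_, fun a b x => ?_⟩
  · exact (Real.measurable_exp.comp ((measSy k ϑ 0 n).const_mul t)).ennreal_ofReal
  · unfold Sy
    rw [depH x x' h 0]
  · simp [Sy, H]
  · rw [Sy_add, mul_add, Real.exp_add, ENNReal.ofReal_mul (Real.exp_pos _).le]

lemma mom_PF (ϖ : Measure ℝ) [IsProbabilityMeasure ϖ] (w m : ℕ → (ℕ → ℝ) → ℝ≥0∞) (hw : WR w)
    (hP : ∀ s, Measurable (PF w s)) (hm : MU m) (c : ℕ → ℝ) (hc : ∀ n, 0 ≤ c n)
    (h : ∀ n : ℕ, 1 ≤ n → ∫⁻ x, m n x * w n x ∂(iid ϖ) ≤ ENNReal.ofReal (c n)) (s : ℕ) :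
    ∫⁻ x, m s x * PF w s x ∂(iid ϖ) ≤ ENNReal.ofReal (uu c s) := by
  induction s using Nat.strong_induction_on with
  | _ s ih =>
    cases s with
    | zero =>
      simp only [hm.ze, PF_zero, one_mul, uu_zero, lintegral_const, measure_univ,
        ENNReal.ofReal_one, le_refl]
    | succ s =>
      have h1 : ∀ x, m (s + 1) x * PF w (s + 1) x = ∑ j ∈ Finset.range (s + 1),
          (fun x => m (j + 1) x * w (j + 1) x) x *
            (fun x => m (s - j) x * PF w (s - j) x) (shift (j + 1) x) := by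
        intro x
        rw [PF_succ, Finset.mul_sum]
        refine Finset.sum_congr rfl fun j hj => ?_
        have hj' := Finset.mem_range.1 hj
        simp only
        have h2 : m (s + 1) x = m (j + 1) x * m (s - j) (shift (j + 1) x) := by
          rw [← hm.ad]
          congr 1
          omega
        rw [h2]
        ring
      simp_rw [h1]
      rw [lintegral_finsetSum, uu_succ, ENNReal.ofReal_sum_of_nonneg]
      · refine Finset.sum_le_sum fun j hj => ?_
        have hj' := Finset.mem_range.1 hj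
        rw [lint_mul_shift ϖ (f := fun x => m (j + 1) x * w (j + 1) x)
          (g := fun x => m (s - j) x * PF w (s - j) x) (t := j + 1), ENNReal.ofReal_mul (hc _)]
        · exact mul_le_mul' (h (j + 1) (by omega)) (ih (s - j) (by omega))
        · intro x x' hx
          simp only
          rw [hm.de (j + 1) x x' hx, (hw (j + 1)).2.1 x x' hx]
        · exact (hm.me _).mul (hw _).1
        · exact (hm.me _).mul (hP _)
      · intro j _
        exact mul_nonneg (hc _) (uu_nonneg _ hc _)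
      · intro j _
        exact ((hm.me _).mul (hw _).1).mul (((hm.me _).mul (hP _)).comp (measurable_shift _))

lemma uu_exp (a : ℝ) (c : ℕ → ℝ) (s : ℕ) :
    uu (fun n => Real.exp (a * n) * c n) s = Real.exp (a * s) * uu c s := by
  induction s using Nat.strong_induction_on with
  | _ s ih =>
    cases s with
    | zero => simp [uu_zero]
    | succ s =>
      rw [uu_succ, uu_succ, Finset.mul_sum]
      refine Finset.sum_congr rfl fun j hj => ?_
      have hj' := Finset.mem_range.1 hj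
      rw [ih (s - j) (by omega), Nat.cast_sub (by omega : j ≤ s)]
      have h1 : Real.exp (a * ((s + 1 : ℕ) : ℝ)) =
          Real.exp (a * ((j + 1 : ℕ) : ℝ)) * Real.exp (a * ((s : ℝ) - j)) := by
        rw [← Real.exp_add]
        congr 1
        push_cast
        ring
      rw [h1]
      ring

/-- the part of the weights which is not random -/
lemma term_le (K : PMF ℕ) (ϖ : Measure ℝ) (k : ℕ) (ϑ a : ℝ) (f : ℕ → (ℕ → ℝ) → ℝ)
    (hf : ∀ n x, 0 ≤ f n x)
    (hi : ∀ n : ℕ, 1 ≤ n → n ≤ k →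
      Integrable (fun x : ℕ → ℝ => f n x * Real.cosh (H x 0 n / 2)) (iid ϖ))
    (hb : ∀ n : ℕ, 1 ≤ n → n ≤ k → ∫ x : ℕ → ℝ, f n x * Real.cosh (H x 0 n / 2) ∂(iid ϖ) ≤
      Real.exp (a * n) * (1 + (ϑ / k * n) ^ 2)) (n : ℕ) (hn : 1 ≤ n) :
    ∫⁻ x, ENNReal.ofReal (f n x) * wc K k n x ∂(iid ϖ) ≤
      ENNReal.ofReal (Real.exp (a * n) * kt K k (ϑ / k) n) := by
  unfold wc kt
  by_cases hnk : n ≤ k
  · simp only [hnk, if_true]
    have h1 : ∀ x : ℕ → ℝ, ENNReal.ofReal (f n x) *
        (pk K n * ENNReal.ofReal (Real.cosh (H x 0 n / 2))) =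
        ENNReal.ofReal (kk K n * (f n x * Real.cosh (H x 0 n / 2))) := by
      intro x
      unfold pk
      rw [ENNReal.ofReal_mul (kk_nonneg K n), ENNReal.ofReal_mul (hf n x)]
      ring
    simp_rw [h1]
    rw [← ofReal_integral_eq_lintegral_ofReal ((hi n hn hnk).const_mul _)
      (Eventually.of_forall fun x => mul_nonneg (kk_nonneg K n)
        (mul_nonneg (hf n x) (Real.cosh_pos _).le))]
    refine ENNReal.ofReal_le_ofReal ?_
    rw [integral_const_mul]
    have h2 := mul_le_mul_of_nonneg_left (hb n hn hnk) (kk_nonneg K n)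
    calc _ ≤ kk K n * (Real.exp (a * n) * (1 + (ϑ / k * n) ^ 2)) := h2
      _ = _ := by ring
  · simp only [hnk, if_false, mul_zero, lintegral_zero]
    exact zero_le

lemma kt_nonneg (K : PMF ℕ) (k : ℕ) (τ : ℝ) (m : ℕ) : 0 ≤ kt K k τ m := by
  unfold kt
  split_ifs
  · exact mul_nonneg (kk_nonneg K m) (by positivity)
  · exact le_rfl

lemma wc_toReal (K : PMF ℕ) (k n : ℕ) (x : ℕ → ℝ) : (wc K k n x).toReal =
    if n ≤ k then kk K n * Real.cosh (H x 0 n / 2) else 0 := by
  unfold wc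
  by_cases hnk : n ≤ k
  · simp only [hnk, if_true]
    unfold pk
    rw [ENNReal.toReal_mul, ENNReal.toReal_ofReal (kk_nonneg K n),
      ENNReal.toReal_ofReal (Real.cosh_pos _).le]
  · simp only [hnk, if_false, ENNReal.toReal_zero]

/-- the mean of `Sy` times the sum over paths -/
lemma drift (K : PMF ℕ) (ϖ : Measure ℝ) [IsProbabilityMeasure ϖ] (k : ℕ) (ϑ A : ℝ)
    (hP : ∀ s, Measurable (PF (wc K k) s) ∧ DepLt s (PF (wc K k) s) ∧ ∀ x, PF (wc K k) s x ≠ ∞)
    (h1 : ∀ n : ℕ, 1 ≤ n → n ≤ k → Integrable (fun x : ℕ → ℝ => Real.cosh (H x 0 n / 2)) (iid ϖ))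
    (h2 : ∀ n : ℕ, 1 ≤ n → n ≤ k →
      Integrable (fun x : ℕ → ℝ => Sy k ϑ x 0 n * Real.cosh (H x 0 n / 2)) (iid ϖ))
    (h3 : ∀ n : ℕ, 1 ≤ n → n ≤ k → ∫ x : ℕ → ℝ, Sy k ϑ x 0 n * Real.cosh (H x 0 n / 2) ∂(iid ϖ) ≤
      A * n * ∫ x : ℕ → ℝ, Real.cosh (H x 0 n / 2) ∂(iid ϖ)) (s : ℕ) :
    Integrable (fun x : ℕ → ℝ => (PF (wc K k) s x).toReal) (iid ϖ) ∧
    Integrable (fun x : ℕ → ℝ => Sy k ϑ x 0 s * (PF (wc K k) s x).toReal) (iid ϖ) ∧
    ∫ x : ℕ → ℝ, Sy k ϑ x 0 s * (PF (wc K k) s x).toReal ∂(iid ϖ) ≤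
      A * s * ∫ x : ℕ → ℝ, (PF (wc K k) s x).toReal ∂(iid ϖ) := by
  have hW := wr_wc K k
  obtain ⟨W, hWe⟩ : ∃ W : ℕ → (ℕ → ℝ) → ℝ, W = fun n x => (wc K k n x).toReal := ⟨_, rfl⟩
  obtain ⟨p, hpe⟩ : ∃ p : ℕ → (ℕ → ℝ) → ℝ, p = fun n x => (PF (wc K k) n x).toReal := ⟨_, rfl⟩
  have hWd : ∀ n, DepLt n (W n) := fun n x x' h => by
    rw [hWe]
    simp only
    rw [(hW n).2.1 x x' h]
  have hSd : ∀ n, DepLt n (fun x => Sy k ϑ x 0 n * W n x) := fun n x x' h => by
    simp only
    rw [hWd n x x' h]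
    unfold Sy
    rw [depH x x' h 0]
  have hWi : ∀ n : ℕ, 1 ≤ n → Integrable (W n) (iid ϖ) ∧
      Integrable (fun x => Sy k ϑ x 0 n * W n x) (iid ϖ) ∧
      ∫ x, Sy k ϑ x 0 n * W n x ∂(iid ϖ) ≤ A * n * ∫ x, W n x ∂(iid ϖ) := by
    intro n hn
    have e1 : W n = fun x => if n ≤ k then kk K n * Real.cosh (H x 0 n / 2) else 0 := by
      funext x
      rw [hWe]
      exact wc_toReal K k n x
    rw [e1]
    by_cases hnk : n ≤ k
    · simp only [hnk, if_true]
      have e2 : (fun x : ℕ → ℝ => Sy k ϑ x 0 n * (kk K n * Real.cosh (H x 0 n / 2))) =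
          fun x : ℕ → ℝ => kk K n * (Sy k ϑ x 0 n * Real.cosh (H x 0 n / 2)) := by
        funext x
        ring
      rw [e2]
      refine ⟨(h1 n hn hnk).const_mul _, (h2 n hn hnk).const_mul _, ?_⟩
      rw [integral_const_mul, integral_const_mul]
      have := mul_le_mul_of_nonneg_left (h3 n hn hnk) (kk_nonneg K n)
      calc _ ≤ _ := this
        _ = _ := by ring
    · simp only [hnk, if_false, mul_zero, integral_zero, le_refl, and_true]
      exact ⟨integrable_zero _ _ _, integrable_zero _ _ _⟩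
  have hW0 : ∀ n x, 0 ≤ W n x := fun n x => by
    rw [hWe]
    exact ENNReal.toReal_nonneg
  have hp0 : ∀ n x, 0 ≤ p n x := fun n x => by
    rw [hpe]
    exact ENNReal.toReal_nonneg
  have hrec : ∀ s x, p (s + 1) x =
      ∑ j ∈ Finset.range (s + 1), W (j + 1) x * p (s - j) (shift (j + 1) x) := by
    intro s x
    rw [hpe, hWe]
    simp only
    rw [PF_succ, ENNReal.toReal_sum]
    · refine Finset.sum_congr rfl fun j _ => ?_
      rw [ENNReal.toReal_mul]
    · intro j _
      exact ENNReal.mul_ne_top ((hW _).2.2 x) ((hP _).2.2 _)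
  have main : ∀ s : ℕ, Integrable (p s) (iid ϖ) ∧
      Integrable (fun x => Sy k ϑ x 0 s * p s x) (iid ϖ) ∧
      ∫ x, Sy k ϑ x 0 s * p s x ∂(iid ϖ) ≤ A * s * ∫ x, p s x ∂(iid ϖ) := by
    intro s
    induction s using Nat.strong_induction_on with
    | _ s ih =>
      cases s with
      | zero =>
        have e1 : p 0 = fun _ => 1 := by
          funext x
          rw [hpe]
          simp only
          rw [PF_zero, ENNReal.toReal_one]
        have e2 : ∀ x : ℕ → ℝ, Sy k ϑ x 0 0 = 0 := fun x => by simp [Sy, H]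
        rw [e1]
        simp only [e2, zero_mul, Nat.cast_zero, mul_zero, integral_zero, le_refl, and_true]
        exact ⟨integrable_const _, integrable_zero _ _ _⟩
      | succ s =>
        have f1 : p (s + 1) = fun x =>
            ∑ j ∈ Finset.range (s + 1), W (j + 1) x * p (s - j) (shift (j + 1) x) := by
          funext x
          exact hrec s x
        have f2 : (fun x => Sy k ϑ x 0 (s + 1) * p (s + 1) x) = fun x =>
            ∑ j ∈ Finset.range (s + 1),
              ((fun x => Sy k ϑ x 0 (j + 1) * W (j + 1) x) x * p (s - j) (shift (j + 1) x) +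
                W (j + 1) x * (fun x => Sy k ϑ x 0 (s - j) * p (s - j) x) (shift (j + 1) x)) := by
          funext x
          rw [hrec, Finset.mul_sum]
          refine Finset.sum_congr rfl fun j hj => ?_
          have hj' := Finset.mem_range.1 hj
          have h4 : Sy k ϑ x 0 (s + 1) = Sy k ϑ x 0 (j + 1) +
              Sy k ϑ (shift (j + 1) x) 0 (s - j) := by
            rw [← Sy_add]
            congr 1
            omega
          rw [h4]
          simp only
          ring
        have i1 : ∀ j ∈ Finset.range (s + 1),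
            Integrable (fun x => W (j + 1) x * p (s - j) (shift (j + 1) x)) (iid ϖ) := by
          intro j hj
          exact integrable_mul_shift ϖ (hWd _) (hWi (j + 1) (by omega)).1
            (ih (s - j) (by omega)).1
        have i2 : ∀ j ∈ Finset.range (s + 1), Integrable (fun x =>
            (fun x => Sy k ϑ x 0 (j + 1) * W (j + 1) x) x * p (s - j) (shift (j + 1) x)) (iid ϖ) :=
          fun j hj => integrable_mul_shift ϖ (hSd _) (hWi (j + 1) (by omega)).2.1
            (ih (s - j) (by omega)).1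
        have i3 : ∀ j ∈ Finset.range (s + 1), Integrable (fun x =>
            W (j + 1) x * (fun x => Sy k ϑ x 0 (s - j) * p (s - j) x) (shift (j + 1) x))
              (iid ϖ) :=
          fun j hj => integrable_mul_shift ϖ (hWd _) (hWi (j + 1) (by omega)).1
            (ih (s - j) (by omega)).2.1
        have i4 : ∀ j ∈ Finset.range (s + 1), Integrable (fun x =>
            ((fun x => Sy k ϑ x 0 (j + 1) * W (j + 1) x) x * p (s - j) (shift (j + 1) x) +
              W (j + 1) x * (fun x => Sy k ϑ x 0 (s - j) * p (s - j) x) (shift (j + 1) x)))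
              (iid ϖ) :=
          fun j hj => (i2 j hj).add (i3 j hj)
        refine ⟨?_, ?_, ?_⟩
        · rw [f1]
          exact integrable_finsetSum _ i1
        · rw [f2]
          exact integrable_finsetSum _ i4
        · rw [f2, f1, integral_finsetSum _ i4, integral_finsetSum _ i1, Finset.mul_sum]
          refine Finset.sum_le_sum fun j hj => ?_
          have hj' := Finset.mem_range.1 hj
          rw [integral_add (i2 j hj) (i3 j hj)]
          have g1 := hWi (j + 1) (by omega)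
          have g2 := ih (s - j) (by omega)
          rw [integral_mul_shift ϖ (hSd _) g1.2.1.aestronglyMeasurable
              g2.1.aestronglyMeasurable,
            integral_mul_shift ϖ (hWd _) g1.1.aestronglyMeasurable g2.2.1.aestronglyMeasurable,
            integral_mul_shift ϖ (hWd _) g1.1.aestronglyMeasurable g2.1.aestronglyMeasurable]
          have c1 : 0 ≤ ∫ x, p (s - j) x ∂(iid ϖ) := integral_nonneg fun x => hp0 _ x
          have c2 : 0 ≤ ∫ x, W (j + 1) x ∂(iid ϖ) := integral_nonneg fun x => hW0 _ x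
          have c3 := mul_le_mul_of_nonneg_right g1.2.2 c1
          have c4 := mul_le_mul_of_nonneg_left g2.2.2 c2
          have c5 : (((s - j : ℕ) : ℝ)) = (s : ℝ) - j := Nat.cast_sub (by omega)
          rw [c5] at c4
          push_cast at c3 ⊢
          nlinarith
  have := main s
  rw [hpe] at this
  exact this

theorem pf_MPF (hPFM : Pool.Agent.H99.CE.T_PFM) (hEXB : T_EXB) : T_MPF := by
  intro K ϖ k ϑ σ τ ω hB s
  have := hB.ep.prob
  have hk : (0 : ℝ) < k := by exact_mod_cast hB.k1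
  have hϑ := hB.ϑ0
  have hω := hB.ω0
  have hτ := hB.τ0
  have hW := wr_wc K k
  have hP := (hPFM.1 _ hW).1
  have hPm : ∀ s, Measurable (PF (wc K k) s) := fun s => (hP s).1
  have hE := hEXB ϖ k ϑ σ τ ω hB
  have hMH : ∀ s : ℕ, 0 ≤ MH K k ϑ τ s := fun s => by
    unfold MH
    exact mul_nonneg (Real.exp_pos _).le (uu_nonneg _ (kt_nonneg K k _) s)
  -- the exponent of the mean
  have hMe : ∀ s : ℕ, uu (fun n => Real.exp ((ϑ / 2 + τ) / k * n) * kt K k (ϑ / k) n) s =
      MH K k ϑ τ s := by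
    intro s
    rw [uu_exp]
    unfold MH
    congr 2
    ring
  have he : ∀ n : ℕ, Real.exp (ϑ * n / k / 2 + τ * n / k) =
      Real.exp ((ϑ / 2 + τ) / k * n) := by
    intro n
    congr 1
    ring
  have hnn : ∀ (a : ℝ) (n : ℕ), 0 ≤ Real.exp (a * n) * kt K k (ϑ / k) n := fun a n =>
    mul_nonneg (Real.exp_pos _).le (kt_nonneg K k _ n)
  have ha : ∫⁻ x, PF (wc K k) s x ∂(iid ϖ) ≤ ENNReal.ofReal (MH K k ϑ τ s) := by
    have h1 := mom_PF ϖ (wc K k) (fun _ _ => 1) hW hPm mu_one
      (fun n => Real.exp ((ϑ / 2 + τ) / k * n) * kt K k (ϑ / k) n) (hnn _) (fun n hn => by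
        have h2 := term_le K ϖ k ϑ ((ϑ / 2 + τ) / k) (fun _ _ => 1) (fun _ _ => zero_le_one)
          (fun n hn hnk => by
            simp only [one_mul]
            exact (hE n hn hnk).1)
          (fun n hn hnk => by
            simp only [one_mul]
            rw [← he]
            exact (hE n hn hnk).2.2.2.2.2.2.1) n hn
        simpa only [ENNReal.ofReal_one] using h2) s
    rw [hMe] at h1
    simpa only [one_mul] using h1
  have hb : ∫⁻ x, ENNReal.ofReal (Real.exp (-(Sy k ϑ x 0 s / 4))) * PF (wc K k) s x ∂(iid ϖ) ≤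
      ENNReal.ofReal (MH K k ϑ τ s) := by
    have e1 : ∀ y : ℝ, -(y / 4) = -1 / 4 * y := fun y => by ring
    simp_rw [e1]
    have h1 := mom_PF ϖ (wc K k) _ hW hPm (mu_Sy k ϑ (-1 / 4))
      (fun n => Real.exp ((ϑ / 2 + τ) / k * n) * kt K k (ϑ / k) n) (hnn _) (fun n hn =>
        term_le K ϖ k ϑ ((ϑ / 2 + τ) / k) (fun n x => Real.exp (-1 / 4 * Sy k ϑ x 0 n))
          (fun _ _ => (Real.exp_pos _).le)
          (fun n hn hnk => by
            have := (hE n hn hnk).2.2.1
            simp_rw [e1] at this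
            exact this)
          (fun n hn hnk => by
            have := (hE n hn hnk).2.2.2.2.2.2.2.2.1
            simp_rw [e1] at this
            rw [he] at this
            exact this) n hn) s
    rw [hMe] at h1
    exact h1
  have hc : ∫⁻ x, ENNReal.ofReal (Real.exp (Sy k ϑ x 0 s / 4)) * PF (wc K k) s x ∂(iid ϖ) ≤
      ENNReal.ofReal (Real.exp (2 * ϑ * s / k) * MH K k ϑ τ s) := by
    have e1 : ∀ (x : ℕ → ℝ) (n : ℕ), Sy k ϑ x 0 n / 4 = 1 / 4 * Sy k ϑ x 0 n :=
      fun x n => by ring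
    have h1 := mom_PF ϖ (wc K k) _ hW hPm (mu_Sy k ϑ (1 / 4))
      (fun n => Real.exp ((2 * ϑ + (ϑ / 2 + τ)) / k * n) * kt K k (ϑ / k) n) (hnn _) (fun n hn =>
        term_le K ϖ k ϑ ((2 * ϑ + (ϑ / 2 + τ)) / k)
          (fun n x => Real.exp (1 / 4 * Sy k ϑ x 0 n)) (fun _ _ => (Real.exp_pos _).le)
          (fun n hn hnk => by
            have := (hE n hn hnk).2.2.2.1
            simp_rw [e1] at this
            exact this)
          (fun n hn hnk => by
            have h3 := (hE n hn hnk).2.2.2.2.2.2.2.2.2.1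
            simp_rw [e1] at h3
            refine h3.trans ?_
            have h4 : Real.exp (2 * (ϑ * n / k) + τ * n / k) ≤
                Real.exp ((2 * ϑ + (ϑ / 2 + τ)) / k * n) := by
              apply Real.exp_le_exp.2
              have h5 : 0 ≤ ϑ * n / k := by positivity
              have h6 : (2 * ϑ + (ϑ / 2 + τ)) / k * n =
                  2 * (ϑ * n / k) + τ * n / k + ϑ * n / k / 2 := by ring
              rw [h6]
              linarith
            calc Real.exp (2 * (ϑ * n / k) + τ * n / k)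
                ≤ Real.exp ((2 * ϑ + (ϑ / 2 + τ)) / k * n) * 1 := by rw [mul_one]; exact h4
              _ ≤ _ := mul_le_mul_of_nonneg_left (by
                  have : 0 ≤ (ϑ / k * n) ^ 2 := sq_nonneg _
                  linarith) (Real.exp_pos _).le) n hn) s
    have h2 : uu (fun n => Real.exp ((2 * ϑ + (ϑ / 2 + τ)) / k * n) * kt K k (ϑ / k) n) s =
        Real.exp (2 * ϑ * s / k) * MH K k ϑ τ s := by
      rw [uu_exp]
      unfold MH
      rw [← mul_assoc, ← Real.exp_add]
      congr 2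
      ring
    rw [h2] at h1
    simp_rw [e1]
    exact h1
  refine ⟨ha, hb, hc, ?_⟩
  obtain ⟨d1, d2, d3⟩ := drift K ϖ k ϑ (ad ϑ ω / k) hP (fun n hn hnk => (hE n hn hnk).1)
    (fun n hn hnk => (hE n hn hnk).2.2.2.2.1) (fun n hn hnk => by
      have := (hE n hn hnk).2.2.2.2.2.2.2.2.2.2
      calc _ ≤ _ := this
        _ = _ := by ring) s
  have hA : 0 ≤ ad ϑ ω := by
    unfold ad
    positivity
  have hfin : ∀ x, ENNReal.ofReal (PF (wc K k) s x).toReal = PF (wc K k) s x := fun x =>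
    ENNReal.ofReal_toReal ((hP s).2.2 x)
  -- the mean of the sum over paths
  have hm1 : ∫ x : ℕ → ℝ, (PF (wc K k) s x).toReal ∂(iid ϖ) ≤ MH K k ϑ τ s := by
    rw [integral_toReal (hPm s).aemeasurable
      (Eventually.of_forall fun x => lt_top_iff_ne_top.2 ((hP s).2.2 x))]
    exact ENNReal.toReal_le_of_le_ofReal (hMH s) ha
  have i2 : Integrable (fun x : ℕ → ℝ => Real.exp (-(Sy k ϑ x 0 s / 4)) *
      (PF (wc K k) s x).toReal) (iid ϖ) ∧
      ∫ x : ℕ → ℝ, Real.exp (-(Sy k ϑ x 0 s / 4)) * (PF (wc K k) s x).toReal ∂(iid ϖ) ≤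
        MH K k ϑ τ s := by
    have m1 : Measurable (fun x : ℕ → ℝ => Real.exp (-(Sy k ϑ x 0 s / 4)) *
        (PF (wc K k) s x).toReal) :=
      (Real.measurable_exp.comp ((measSy k ϑ 0 s).div_const 4).neg).mul (hPm s).ennreal_toReal
    have n1 : 0 ≤ᵐ[iid ϖ] fun x : ℕ → ℝ => Real.exp (-(Sy k ϑ x 0 s / 4)) *
        (PF (wc K k) s x).toReal := Eventually.of_forall fun x =>
      mul_nonneg (Real.exp_pos _).le ENNReal.toReal_nonneg
    have l1 : ∫⁻ x, ENNReal.ofReal (Real.exp (-(Sy k ϑ x 0 s / 4)) *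
        (PF (wc K k) s x).toReal) ∂(iid ϖ) ≤ ENNReal.ofReal (MH K k ϑ τ s) := by
      have e1 : ∀ x : ℕ → ℝ, ENNReal.ofReal (Real.exp (-(Sy k ϑ x 0 s / 4)) *
          (PF (wc K k) s x).toReal) =
          ENNReal.ofReal (Real.exp (-(Sy k ϑ x 0 s / 4))) * PF (wc K k) s x := fun x => by
        rw [ENNReal.ofReal_mul (Real.exp_pos _).le, hfin]
      simp_rw [e1]
      exact hb
    constructor
    · refine ⟨m1.aestronglyMeasurable, ?_⟩
      rw [hasFiniteIntegral_iff_ofReal n1]
      exact l1.trans_lt ENNReal.ofReal_lt_top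
    · rw [integral_eq_lintegral_of_nonneg_ae n1 m1.aestronglyMeasurable]
      exact ENNReal.toReal_le_of_le_ofReal (hMH s) l1
  have hz : ∀ z : ℝ, -z ≤ 4 * Real.exp (-(z / 4)) := fun z => by
    have := Real.add_one_le_exp (-(z / 4))
    linarith
  have hpt : ∀ x : ℕ → ℝ, ENNReal.ofReal (Sy k ϑ x 0 s) * PF (wc K k) s x ≤
      ENNReal.ofReal (Sy k ϑ x 0 s * (PF (wc K k) s x).toReal +
        4 * (Real.exp (-(Sy k ϑ x 0 s / 4)) * (PF (wc K k) s x).toReal)) := by
    intro x
    have h1 := hz (Sy k ϑ x 0 s)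
    have h0 : 0 ≤ (PF (wc K k) s x).toReal := ENNReal.toReal_nonneg
    have h2 := Real.exp_pos (-(Sy k ϑ x 0 s / 4))
    calc ENNReal.ofReal (Sy k ϑ x 0 s) * PF (wc K k) s x
        = ENNReal.ofReal (Sy k ϑ x 0 s) * ENNReal.ofReal (PF (wc K k) s x).toReal := by
          rw [hfin]
      _ = ENNReal.ofReal (Sy k ϑ x 0 s * (PF (wc K k) s x).toReal) :=
          (ENNReal.ofReal_mul' h0).symm
      _ ≤ _ := by
          apply ENNReal.ofReal_le_ofReal
          have : 0 ≤ Real.exp (-(Sy k ϑ x 0 s / 4)) * (PF (wc K k) s x).toReal :=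
            mul_nonneg h2.le h0
          linarith
  refine (lintegral_mono hpt).trans ?_
  have hi : Integrable (fun x : ℕ → ℝ => Sy k ϑ x 0 s * (PF (wc K k) s x).toReal +
      4 * (Real.exp (-(Sy k ϑ x 0 s / 4)) * (PF (wc K k) s x).toReal)) (iid ϖ) :=
    d2.add (i2.1.const_mul 4)
  rw [← ofReal_integral_eq_lintegral_ofReal hi
    (Eventually.of_forall fun x => by
      have h1 := hz (Sy k ϑ x 0 s)
      have h0 : 0 ≤ (PF (wc K k) s x).toReal := ENNReal.toReal_nonneg
      have := mul_nonneg (sub_nonneg.2 h1) h0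
      simp only [Pi.zero_apply]
      nlinarith)]
  apply ENNReal.ofReal_le_ofReal
  rw [integral_add d2 (i2.1.const_mul 4), integral_const_mul]
  have h1 : ad ϑ ω / k * s * ∫ x : ℕ → ℝ, (PF (wc K k) s x).toReal ∂(iid ϖ) ≤
      ad ϑ ω / k * s * MH K k ϑ τ s := mul_le_mul_of_nonneg_left hm1 (by positivity)
  have h2 : (ad ϑ ω * (s / k) + 4) * MH K k ϑ τ s =
      ad ϑ ω / k * s * MH K k ϑ τ s + 4 * MH K k ϑ τ s := by ring
  rw [h2]
  have h3 := i2.2
  linarith

end Pool.Agent.H25.EX
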