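import Pool.Agent.H98.EX.KTargets

/-!
# Row SMX: the masses of the skeleton

Copy of `Pool/Agent/H60/CE/STM.lean` (helper60) with a free unit.
-/

set_option autoImplicit false

open MeasureTheory ProbabilityTheory Filter Topology
open scoped ENNReal
open Pool.Agent.H95 Pool.Agent.H95.Cop Pool.Agent.H96.Cop
open Pool.Agent.H99.CE (BX w1 cq tb Gf Hf Kd ld mx ab eb TT FL EE lg Reg)

namespace Pool.Agent.H25.EX

open Pool.Agent.H98.EX

theorem pf_SMX (hPFM : Pool.Agent.H99.CE.T_PFM) (hHFT : Pool.Agent.H99.CE.T_HFT)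
    (hGLO : Pool.Agent.H99.CE.T_GLO) (hNAX : T_NAX) : T_SMX := by
  intro K ν _ e α s c δ k B hα hs hth he hc hδ hk hkB n
  obtain ⟨hna, htb, -, -, -, -, hθ, -⟩ := hNAX e α s c δ k B 1 hα hs he hc hδ hk hkB le_rfl
  obtain ⟨t, ht⟩ : ∃ t, t = tb α c δ B := ⟨_, rfl⟩
  obtain ⟨θ, hθe⟩ : ∃ θ, θ = te α s := ⟨_, rfl⟩
  have hn0 : ENNReal.ofReal (ue e α s c δ k B) ≠ 0 := by
    rw [Ne, ENNReal.ofReal_eq_zero]
    exact not_le.2 hna
  have hn1 : ENNReal.ofReal (ue e α s c δ k B) ≠ ∞ := ENNReal.ofReal_ne_top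
  have hF : ∀ b x, BX (w1 K B) B b x ≠ ∞ := fun b x =>
    ((hPFM.1 (w1 K B) ((hPFM.2 K).1 B)).2.1 B b).2.2 x
  rw [← ht, ← hθe]
  rw [← ht] at htb
  rw [← hθe] at hth hθ
  constructor
  · have h1 : ∀ b, ∫⁻ x, EE (fun b => BX (w1 K B) B b) (ENNReal.ofReal t) b x ^ θ ∂(iid ν) ≤
        (if b = 0 then ∫⁻ x, Hf t θ (BX (w1 K B) B 0 x) ∂(iid ν) else 0) +
          (b : ℝ≥0∞) * ∫⁻ x, BX (w1 K B) B b x ^ θ ∂(iid ν) := by
      intro b
      by_cases hb : b = 0
      · subst hb
        rw [if_pos rfl]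
        refine le_add_right (lintegral_mono fun x => ?_)
        unfold EE
        rw [if_pos rfl]
        by_cases hx : BX (w1 K B) B 0 x ≤ ENNReal.ofReal t
        · simp only [if_pos hx]
          rw [ENNReal.zero_rpow_of_pos hθ]
          exact zero_le
        · simp only [if_neg hx]
          rw [((hHFT t θ (BX (w1 K B) B 0 x) htb hθ hth).2.1) (not_le.1 hx)]
      · rw [if_neg hb, zero_add]
        have hb1 : (1 : ℝ≥0∞) ≤ (b : ℝ≥0∞) := by
          exact_mod_cast Nat.one_le_iff_ne_zero.2 hb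
        have h2 : ∫⁻ x, EE (fun b => BX (w1 K B) B b) (ENNReal.ofReal t) b x ^ θ ∂(iid ν) =
            ∫⁻ x, BX (w1 K B) B b x ^ θ ∂(iid ν) := by
          refine lintegral_congr fun x => ?_
          unfold EE
          rw [if_neg hb]
        rw [h2]
        exact le_mul_of_one_le_left zero_le hb1
    refine (Finset.sum_le_sum fun b _ => h1 b).trans ?_
    rw [Finset.sum_add_distrib, mul_add]
    unfold QNe QRe
    rw [ENNReal.mul_div_cancel hn0 hn1, ENNReal.mul_div_cancel hn0 hn1, ← ht, ← hθe]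
    refine add_le_add ?_ (ENNReal.sum_le_tsum _)
    rw [Finset.sum_ite_eq' (Finset.range n) 0]
    split_ifs
    · exact le_rfl
    · exact zero_le
  · have h1 : ∀ b, ∫⁻ x, EE (fun b => BX (w1 K B) B b) (ENNReal.ofReal t) b x ^ θ *
        (ENNReal.ofReal e * lg t
          (EE (fun b => BX (w1 K B) B b) (ENNReal.ofReal t) b x)) ∂(iid ν) ≤
        ENNReal.ofReal e * ∫⁻ x, Gf t θ (BX (w1 K B) B b x) ∂(iid ν) := by
      intro b
      rw [← lintegral_const_mul' _ _ ENNReal.ofReal_ne_top]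
      refine lintegral_mono fun x => ?_
      have h2 : EE (fun b => BX (w1 K B) B b) (ENNReal.ofReal t) b x = 0 ∨
          EE (fun b => BX (w1 K B) B b) (ENNReal.ofReal t) b x = BX (w1 K B) B b x := by
        unfold EE
        by_cases hb : b = 0
        · subst hb
          rw [if_pos rfl]
          by_cases hx : BX (w1 K B) B 0 x ≤ ENNReal.ofReal t
          · left
            exact if_pos hx
          · right
            exact if_neg hx
        · right
          rw [if_neg hb]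
      rcases h2 with h2 | h2
      · rw [h2, ENNReal.zero_rpow_of_pos hθ, zero_mul]
        exact zero_le
      · rw [h2]
        have h3 := hGLO t θ (BX (w1 K B) B b x) htb hθ hth (hF b x)
        calc BX (w1 K B) B b x ^ θ * (ENNReal.ofReal e * lg t (BX (w1 K B) B b x)) =
            ENNReal.ofReal e * (BX (w1 K B) B b x ^ θ * lg t (BX (w1 K B) B b x)) := by
              ring
          _ ≤ _ := mul_le_mul_right h3 _
    refine (Finset.sum_le_sum fun b _ => h1 b).trans ?_
    unfold QGe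
    rw [ENNReal.mul_div_cancel hn0 hn1, ← ht, ← hθe, ← Finset.mul_sum]
    exact mul_le_mul_right (ENNReal.sum_le_tsum _) _

end Pool.Agent.H25.EX
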